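import Mathlib

open Filter Topology Set Complex Metric

namespace Pool.Agent.H.MP_f48be4_an

noncomputable def c (k : ℕ) : ℝ := 2 ^ k
lemma c_pos (k : ℕ) : 0 < c k := by unfold c; positivity
lemma c_one (k : ℕ) : 1 ≤ c k := one_le_pow₀ (by norm_num)
lemma c_succ (k : ℕ) : c (k + 1) = 2 * c k := by unfold c; ring
lemma sum_c : Summable fun k => (c k)⁻¹ := by
  simpa [c] using summable_geometric_two

noncomputable def tm (k : ℕ) (w : ℂ) : ℂ := w / (w + c k)
noncomputable def φ0 (w : ℂ) : ℂ := ∑' k, tm k w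
def G : Set ℂ := {w | ∀ k, w + c k ≠ 0}

lemma G_low {w : ℂ} (hw : w ∈ G) : ∃ ε > 0, ∀ k, ε * c k ≤ ‖w + c k‖ := by
  obtain ⟨N, hN⟩ := pow_unbounded_of_one_lt (2 * ‖w‖) (show (1:ℝ) < 2 by norm_num)
  have h1 : ∀ k, N ≤ k → 1 / 2 * c k ≤ ‖w + c k‖ := fun k hk => by
    have h2 : (2:ℝ) ^ N ≤ c k := pow_le_pow_right₀ (by norm_num) hk
    have h3 := norm_sub_norm_le (c k : ℂ) (-w)
    rw [sub_neg_eq_add, norm_neg, norm_real, Real.norm_of_nonneg (c_pos k).le, add_comm] at h3
    linarith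
  have h2 : ∀ n : ℕ, ∃ ε > 0, ∀ k, k < n → ε * c k ≤ ‖w + c k‖ := by
    intro n
    induction n with
    | zero => exact ⟨1, one_pos, fun k hk => absurd hk (Nat.not_lt_zero k)⟩
    | succ n ih =>
      obtain ⟨ε, h0, h⟩ := ih
      have hp : 0 < ‖w + c n‖ / c n := div_pos (norm_pos_iff.2 (hw n)) (c_pos n)
      refine ⟨min ε (‖w + c n‖ / c n), lt_min h0 hp, fun k hk => ?_⟩
      rcases Nat.lt_succ_iff_lt_or_eq.1 hk with hk | rfl
      · exact le_trans (mul_le_mul_of_nonneg_right (min_le_left _ _) (c_pos k).le) (h k hk)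
      · exact (le_div_iff₀ (c_pos k)).1 (min_le_right _ _)
  obtain ⟨ε, h0, h⟩ := h2 N
  refine ⟨min ε (1 / 2), lt_min h0 (by norm_num), fun k => ?_⟩
  rcases lt_or_ge k N with hk | hk
  · exact le_trans (mul_le_mul_of_nonneg_right (min_le_left _ _) (c_pos k).le) (h k hk)
  · exact le_trans (mul_le_mul_of_nonneg_right (min_le_right _ _) (c_pos k).le) (h1 k hk)

lemma loc {w : ℂ} (hw : w ∈ G) : ∃ δ > 0, ∃ M : ℝ, ∀ z ∈ ball w δ,
    ∀ k, z + c k ≠ 0 ∧ ‖tm k z‖ ≤ M * (c k)⁻¹ := by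
  obtain ⟨ε, h0, h⟩ := G_low hw
  refine ⟨ε / 2, by positivity, (‖w‖ + ε) * (2 / ε), fun z hz k => ?_⟩
  rw [mem_ball, dist_eq_norm] at hz
  have h1 : ε / 2 * c k ≤ ‖z + c k‖ := by
    have h2 := norm_sub_norm_le (w + c k) (w - z)
    rw [show w + c k - (w - z) = z + c k by ring, norm_sub_rev] at h2
    nlinarith [h k, c_one k]
  have h3 : 0 < ε / 2 * c k := mul_pos (by positivity) (c_pos k)
  refine ⟨norm_pos_iff.1 (h3.trans_le h1), ?_⟩
  have h4 : ‖z‖ ≤ ‖w‖ + ε := by
    have := norm_sub_norm_le z w; linarith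
  rw [tm, norm_div]
  refine (div_le_div₀ (by positivity) h4 h3 h1).trans (le_of_eq ?_)
  have := c_pos k
  field_simp

lemma tm_sum {w : ℂ} (hw : w ∈ G) : Summable fun k => tm k w := by
  obtain ⟨δ, h0, M, h⟩ := loc hw
  exact Summable.of_norm_bounded (sum_c.mul_left M) fun k => (h w (mem_ball_self h0) k).2

lemma φ0_diff {w : ℂ} (hw : w ∈ G) : DifferentiableAt ℂ φ0 w := by
  obtain ⟨δ, h0, M, h⟩ := loc hw
  have := differentiableOn_tsum_of_summable_norm (sum_c.mul_left M) (F := tm) (U := ball w δ)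
    (fun k => ?_) isOpen_ball (fun k z hz => (h z hz k).2)
  · exact this.differentiableAt (ball_mem_nhds _ h0)
  · exact differentiableOn_id.div (differentiableOn_id.add_const _) fun z hz => (h z hz k).1

lemma G_of_im {w : ℂ} (h : 0 < w.im) : w ∈ G := fun k h0 => by
  have := congrArg im h0; simp at this; exact h.ne' this

lemma G_of_re {w : ℂ} (h : -1 < w.re) : w ∈ G := fun k h0 => by
  have := congrArg re h0; simp at this; linarith [c_one k]

lemma tm_im (k : ℕ) (w : ℂ) : (tm k w).im = w.im * (c k / normSq (w + c k)) := by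
  rw [tm, div_im]; simp; ring

lemma tm_re (k : ℕ) (w : ℂ) : (tm k w).re = (normSq w + c k * w.re) / normSq (w + c k) := by
  rw [tm, div_re, normSq_apply w]; simp; ring

lemma hs_im {w : ℂ} (hw : w ∈ G) :
    HasSum (fun k => w.im * (c k / normSq (w + c k))) (φ0 w).im := by
  simpa only [tm_im, φ0] using hasSum_im (tm_sum hw).hasSum

lemma hs_re {w : ℂ} (hw : w ∈ G) :
    HasSum (fun k => (normSq w + c k * w.re) / normSq (w + c k)) (φ0 w).re := by
  simpa only [tm_re, φ0] using hasSum_re (tm_sum hw).hasSum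

lemma im0_pos {w : ℂ} (h : 0 < w.im) : 0 < (φ0 w).im := by
  have hw := G_of_im h
  refine lt_of_lt_of_le ?_ (le_hasSum (hs_im hw) 0
    fun k _ => mul_nonneg h.le (div_nonneg (c_pos k).le (normSq_nonneg _)))
  exact mul_pos h (div_pos (c_pos 0) (normSq_pos.2 (hw 0)))

noncomputable def a : ℝ := ((φ0 I).im)⁻¹
noncomputable def b : ℝ := -a * (φ0 I).re
noncomputable def φ (w : ℂ) : ℂ := a * φ0 w + b

lemma a_pos : 0 < a := inv_pos.2 (im0_pos (by simp))
lemma a_mul : a * (φ0 I).im = 1 := inv_mul_cancel₀ (im0_pos (by simp)).ne'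
lemma φ_im (w : ℂ) : (φ w).im = a * (φ0 w).im := by simp [φ]
lemma φ_re (w : ℂ) : (φ w).re = a * (φ0 w).re + b := by simp [φ]
lemma φ_I : φ I = I := by
  apply Complex.ext
  · rw [φ_re, b]; simp
  · rw [φ_im, a_mul]; simp
lemma im_pos {w : ℂ} (h : 0 < w.im) : 0 < (φ w).im := by
  rw [φ_im]; exact mul_pos a_pos (im0_pos h)
lemma φ_diff {w : ℂ} (hw : w ∈ G) : DifferentiableAt ℂ φ w :=
  ((φ0_diff hw).const_mul _).add_const _
lemma φ_real {x : ℝ} (hx : (x : ℂ) ∈ G) : φ x = ((φ x).re : ℂ) := by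
  apply Complex.ext
  · simp
  · have := (hs_im hx).unique (a₂ := 0) (by simp [hasSum_zero])
    rw [φ_im, this]; simp

lemma tele {u g : ℕ → ℝ} {s : ℝ} (hs : HasSum u s) (h : ∀ k, u k ≤ g k - g (k + 1))
    (hg : ∀ k, 0 ≤ g k) : s ≤ g 0 :=
  le_of_tendsto' hs.tendsto_sum_nat fun n => by
    have := Finset.sum_le_sum fun k (_ : k ∈ Finset.range n) => h k
    rw [Finset.sum_range_sub'] at this
    linarith [hg n]

lemma im_iy {y : ℝ} (hy : 0 < y) : (φ (I * y)).im ≤ 4 * a := by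
  have h := tele (hs_im (w := I * y) (G_of_im (by simpa))) (g := fun k => 4 * (y / (y + c k)))
    (fun k => ?_) (fun k => by have := c_pos k; positivity)
  · have h2 : y / (y + c 0) ≤ 1 := by
      rw [div_le_one (by have := c_pos 0; positivity)]; linarith [c_pos 0]
    rw [φ_im]; nlinarith [a_pos]
  · have := c_pos k
    have e : normSq (I * y + c k) = c k * c k + y * y := by simp [normSq_apply]
    rw [e, c_succ]
    simp only [mul_im, I_re, ofReal_im, mul_zero, I_im, ofReal_re, one_mul, zero_add]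
    rw [← sub_nonneg]
    have : 4 * (y / (y + c k)) - 4 * (y / (y + 2 * c k)) - y * (c k / (c k * c k + y * y)) =
        y * c k * (3 * y ^ 2 - 3 * y * c k + 2 * c k ^ 2) /
          ((y + c k) * (y + 2 * c k) * (c k * c k + y * y)) := by
      field_simp; ring
    rw [this]
    have : 0 ≤ 3 * y ^ 2 - 3 * y * c k + 2 * c k ^ 2 := by nlinarith [sq_nonneg (y - c k)]
    positivity

lemma im_half {w : ℂ} (h : 4 * a ≤ w.re) (hi : 0 ≤ w.im) : (φ w).im ≤ w.im / 2 := by
  have hx : 0 < w.re := by linarith [a_pos]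
  have h1 := tele (hs_im (w := w) (G_of_re (by linarith)))
    (g := fun k => w.im * (2 / (w.re + c k))) (fun k => ?_)
    (fun k => by have := c_pos k; positivity)
  · have h2 : a * (2 / (w.re + c 0)) ≤ 1 / 2 := by
      rw [mul_div_assoc', div_le_iff₀ (by have := c_pos 0; positivity)]; linarith [c_pos 0]
    rw [φ_im]
    nlinarith [mul_le_mul_of_nonneg_left h1 a_pos.le, mul_le_mul_of_nonneg_left h2 hi]
  · have := c_pos k
    rw [← mul_sub, c_succ]
    refine mul_le_mul_of_nonneg_left ?_ hi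
    have e : (w.re + c k) ^ 2 ≤ normSq (w + c k) := by
      simp only [normSq_apply, add_re, ofReal_re, add_im, ofReal_im]; nlinarith
    refine (div_le_div_of_nonneg_left this.le (by positivity) e).trans ?_
    rw [← sub_nonneg]
    have : 2 / (w.re + c k) - 2 / (w.re + 2 * c k) - c k / (w.re + c k) ^ 2 =
        c k * w.re / ((w.re + c k) ^ 2 * (w.re + 2 * c k)) := by
      field_simp; ring
    rw [this]; positivity

lemma re_lt {w : ℂ} (h : -1 < w.re) (h2 : w.im ^ 2 ≤ w.re ^ 2) (h3 : w.im = 0 ∨ 0 ≤ w.re) :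
    (φ w).re < w.re := by
  have hw := G_of_re h
  have hI : I ∈ G := G_of_im (by simp)
  have e : ∀ k, normSq (I + c k) = 1 + c k ^ 2 := fun k => by simp [normSq_apply]; ring
  have s1 := hs_re hw
  have s2 := hs_re hI
  have s3 := hs_im hI
  simp only [e, normSq_I, I_re, mul_zero, add_zero, I_im, one_mul] at s2 s3
  have s4 := (s2.add (s3.mul_left w.re)).sub s1
  have key : ∀ k, 0 < 1 / (1 + c k ^ 2) + w.re * (c k / (1 + c k ^ 2)) -
      (normSq w + c k * w.re) / normSq (w + c k) := fun k => by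
    have hc := c_pos k
    have hc1 := c_one k
    have hn := normSq_pos.2 (hw k)
    have e2 : normSq (w + c k) = (w.re + c k) ^ 2 + w.im ^ 2 := by simp [normSq_apply]; ring
    have e3 : normSq w = w.re ^ 2 + w.im ^ 2 := by simp [normSq_apply]; ring
    have : 1 / (1 + c k ^ 2) + w.re * (c k / (1 + c k ^ 2)) -
        (normSq w + c k * w.re) / normSq (w + c k) =
        c k * ((w.re + c k) * (1 + w.re ^ 2) + w.im ^ 2 * (w.re - c k)) /
          ((1 + c k ^ 2) * normSq (w + c k)) := by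
      field_simp; rw [e2, e3]; ring
    rw [this]
    refine div_pos (mul_pos hc ?_) (by positivity)
    rcases h3 with h3 | h3
    · rw [h3]; have : 0 < w.re + c k := by linarith
      simp only [ne_eq, OfNat.ofNat_ne_zero, not_false_eq_true, zero_pow, zero_mul, add_zero]
      positivity
    · nlinarith [mul_le_mul_of_nonneg_left h2 hc.le, mul_nonneg h3 (sq_nonneg w.im),
        mul_nonneg h3 (sq_nonneg w.re)]
  have s5 := (key 0).trans_le (le_hasSum s4 0 fun k _ => (key k).le)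
  have s6 := mul_pos a_pos s5
  rw [φ_re, b]
  nlinarith [a_mul]

lemma re_big (M : ℝ) : ∃ R : ℝ, ∀ w : ℂ, 0 ≤ w.re → R ≤ ‖w‖ → M ≤ (φ w).re := by
  obtain ⟨N, hN⟩ := exists_nat_ge (4 * ((M - b) / a))
  refine ⟨c N, fun w h0 hw => ?_⟩
  have hG := G_of_re (w := w) (by linarith)
  have h1 := sum_le_hasSum (Finset.range N) (fun k _ => div_nonneg
    (add_nonneg (normSq_nonneg _) (mul_nonneg (c_pos k).le h0)) (normSq_nonneg _)) (hs_re hG)
  have h2 : ∀ k ∈ Finset.range N, (1 / 4 : ℝ) ≤ (normSq w + c k * w.re) / normSq (w + c k) := by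
    intro k hk
    have h3 : c k ≤ ‖w‖ := le_trans (pow_le_pow_right₀ (by norm_num) (Finset.mem_range.1 hk).le) hw
    have h4 : ‖w + c k‖ ≤ 2 * ‖w‖ := by
      have := norm_add_le w (c k)
      rw [norm_real, Real.norm_of_nonneg (c_pos k).le] at this; linarith
    rw [le_div_iff₀ (normSq_pos.2 (hG k)), normSq_eq_norm_sq, normSq_eq_norm_sq]
    nlinarith [mul_nonneg (c_pos k).le h0, norm_nonneg (w + c k)]
  have h5 := Finset.sum_le_sum h2
  simp only [Finset.sum_const, Finset.card_range, nsmul_eq_mul] at h5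
  have h6 : (M - b) / a ≤ (φ0 w).re := by linarith
  rw [div_le_iff₀ a_pos] at h6
  rw [φ_re]; linarith

end Pool.Agent.H.MP_f48be4_an
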