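import Pool.Agent.H.MP_f48be4_an.A

open Filter Topology Set Complex Metric

namespace Pool.Agent.H.MP_f48be4_an

noncomputable def Φ (x : ℝ) : ℝ := (φ x).re

/-- same branch -/
lemma step {x y : ℝ} (hxy : x ≤ y) (h : ∀ k, 0 < (x + c k) * (y + c k)) (k : ℕ) :
    a * (c k * (y - x) / ((x + c k) * (y + c k))) ≤ Φ y - Φ x := by
  have h1 : ∀ k, x + c k ≠ 0 := fun k h0 => by have := h k; rw [h0] at this; simp at this
  have h2 : ∀ k, y + c k ≠ 0 := fun k h0 => by have := h k; rw [h0] at this; simp at this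
  have gx : (x : ℂ) ∈ G := fun k => by exact_mod_cast h1 k
  have gy : (y : ℂ) ∈ G := fun k => by exact_mod_cast h2 k
  have s := (hs_re gy).sub (hs_re gx)
  have e : ∀ k, (normSq (y : ℂ) + c k * (y : ℂ).re) / normSq ((y : ℂ) + c k) -
      (normSq (x : ℂ) + c k * (x : ℂ).re) / normSq ((x : ℂ) + c k) =
      c k * (y - x) / ((x + c k) * (y + c k)) := fun k => by
    have := h1 k; have := h2 k
    rw [← ofReal_add, ← ofReal_add, normSq_ofReal, normSq_ofReal, normSq_ofReal, normSq_ofReal,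
      ofReal_re, ofReal_re]
    field_simp; ring
  simp only [e] at s
  have := le_hasSum s k fun j _ => div_nonneg (mul_nonneg (c_pos j).le (sub_nonneg.2 hxy)) (h j).le
  unfold Φ; rw [φ_re, φ_re]
  nlinarith [mul_le_mul_of_nonneg_left this a_pos.le]

lemma Φ_cont {x : ℝ} (hx : (x : ℂ) ∈ G) : ContinuousAt Φ x :=
  continuous_re.continuousAt.comp ((φ_diff hx).continuousAt.comp continuous_ofReal.continuousAt)

def B0 : Set ℝ := Ioi (-1)
def B1 : Set ℝ := Ioo (-2) (-1)

lemma c0 : c 0 = 1 := by simp [c]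
lemma c1 : c 1 = 2 := by simp [c]
lemma c_two (k : ℕ) : 2 ≤ c (k + 1) := by rw [c_succ]; linarith [c_one k]

lemma br0 {x y : ℝ} (hx : x ∈ B0) (hy : y ∈ B0) (k : ℕ) : 0 < (x + c k) * (y + c k) :=
  mul_pos (by linarith [c_one k, mem_Ioi.1 hx]) (by linarith [c_one k, mem_Ioi.1 hy])

lemma br1 {x y : ℝ} (hx : x ∈ B1) (hy : y ∈ B1) (k : ℕ) : 0 < (x + c k) * (y + c k) := by
  cases k with
  | zero => rw [c0]; exact mul_pos_of_neg_of_neg (by linarith [hx.2]) (by linarith [hy.2])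
  | succ k => exact mul_pos (by linarith [c_two k, hx.1]) (by linarith [c_two k, hy.1])

lemma G0 {x : ℝ} (hx : x ∈ B0) : (x : ℂ) ∈ G := G_of_re (by simpa using mem_Ioi.1 hx)
lemma G1 {x : ℝ} (hx : x ∈ B1) : (x : ℂ) ∈ G := fun k h0 => by
  have h : x + c k = 0 := by exact_mod_cast h0
  have := br1 hx hx k; rw [h] at this; simp at this

lemma mono0 {x y : ℝ} (hx : x ∈ B0) (hy : y ∈ B0) (h : x ≤ y) : Φ x ≤ Φ y := by
  have := step h (br0 hx hy) 0
  have h2 : 0 ≤ a * (c 0 * (y - x) / ((x + c 0) * (y + c 0))) := mul_nonneg a_pos.le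
    (div_nonneg (mul_nonneg (c_pos 0).le (sub_nonneg.2 h)) (br0 hx hy 0).le)
  linarith

lemma small (v : ℝ) : ∃ δ : ℝ, 0 < δ ∧ δ < 1 / 4 ∧ v ≤ a * (1 / 4 / δ) := by
  have := a_pos
  refine ⟨a / (4 * (|v| + 1 + 2 * a)), by positivity, ?_, ?_⟩
  · rw [div_lt_iff₀ (by positivity)]; nlinarith [abs_nonneg v]
  · have : a * (1 / 4 / (a / (4 * (|v| + 1 + 2 * a)))) = |v| + 1 + 2 * a := by field_simp
    rw [this]; linarith [le_abs_self v]

lemma surj0 (v : ℝ) : ∃ x ∈ B0, Φ x = v := by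
  obtain ⟨δ, h0, h1, h2⟩ := small (Φ 0 - v)
  have m1 : -1 + δ ∈ B0 := by simp [B0, h0]
  have m0 : (0:ℝ) ∈ B0 := by simp [B0]
  have h3 := step (show -1 + δ ≤ 0 by linarith) (br0 m1 m0) 0
  have h4 : a * (1 / 4 / δ) ≤ a * (c 0 * (0 - (-1 + δ)) / ((-1 + δ + c 0) * (0 + c 0))) := by
    refine mul_le_mul_of_nonneg_left ?_ a_pos.le
    rw [c0, show (-1 + δ + 1) * (0 + 1) = δ by ring]
    exact div_le_div_of_nonneg_right (by linarith) h0.le
  obtain ⟨R, hR⟩ := re_big v
  have m2 : |R| ∈ B0 := by simp only [B0, mem_Ioi]; linarith [abs_nonneg R]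
  have h5 : v ≤ Φ |R| := hR _ (by simp) (by simpa using le_abs_self R)
  exact isPreconnected_Ioi.intermediate_value m1 m2
    (fun x hx => (Φ_cont (G0 hx)).continuousWithinAt) ⟨by linarith, h5⟩

lemma surj1 (v : ℝ) : ∃ x ∈ B1, Φ x = v := by
  obtain ⟨δ, h0, h1, h2⟩ := small (Φ (-3 / 2) - v)
  obtain ⟨η, g0, g1, g2⟩ := small (v - Φ (-3 / 2))
  have m1 : -2 + δ ∈ B1 := ⟨by linarith, by linarith⟩
  have m2 : -1 - η ∈ B1 := ⟨by linarith, by linarith⟩
  have m0 : (-3 / 2 : ℝ) ∈ B1 := ⟨by norm_num, by norm_num⟩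
  have h3 := step (show -2 + δ ≤ -3 / 2 by linarith) (br1 m1 m0) 1
  have g3 := step (show -3 / 2 ≤ -1 - η by linarith) (br1 m0 m2) 0
  have h4 : a * (1 / 4 / δ) ≤ a * (c 1 * (-3 / 2 - (-2 + δ)) / ((-2 + δ + c 1) * (-3 / 2 + c 1))) := by
    refine mul_le_mul_of_nonneg_left ?_ a_pos.le
    rw [c1, div_le_div_iff₀ h0 (by nlinarith)]
    nlinarith
  have g4 : a * (1 / 4 / η) ≤ a * (c 0 * (-1 - η - -3 / 2) / ((-3 / 2 + c 0) * (-1 - η + c 0))) := by
    refine mul_le_mul_of_nonneg_left ?_ a_pos.le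
    rw [c0, div_le_div_iff₀ g0 (by nlinarith)]
    nlinarith
  exact isPreconnected_Ioo.intermediate_value m1 m2
    (fun x hx => (Φ_cont (G1 hx)).continuousWithinAt) ⟨by linarith, by linarith⟩

lemma cyc : ∃ p ∈ B0, ∃ q ∈ B1, Φ p = q ∧ Φ q = p := by
  obtain ⟨T, hT, eT⟩ := surj0 (-1)
  obtain ⟨u, hu, eu⟩ := surj1 (-1)
  obtain ⟨v, hv, ev⟩ := surj1 T
  obtain ⟨s, hs, es⟩ := surj0 u
  obtain ⟨t, ht, et⟩ := surj0 v
  have htT : t ≤ T := by
    by_contra h
    have := mono0 hT ht (not_le.1 h).le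
    linarith [hv.2]
  have hsub : uIcc s t ⊆ B0 := ordConnected_Ioi.uIcc_subset hs ht
  have hmap : ∀ x ∈ uIcc s t, Φ x ∈ B1 := fun x hx => by
    have h1 := hsub hx
    rcases mem_uIcc.1 hx with h | h
    · exact ⟨by linarith [mono0 hs h1 h.1, hu.1], by linarith [mono0 h1 ht h.2, hv.2]⟩
    · exact ⟨by linarith [mono0 ht h1 h.1, hv.1], by linarith [mono0 h1 hs h.2, hu.2]⟩
  have hc : ContinuousOn (fun x => Φ (Φ x) - x) (uIcc s t) := fun x hx =>
    (((Φ_cont (G1 (hmap x hx))).comp (Φ_cont (G0 (hsub hx)))).sub continuousAt_id).continuousWithinAt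
  obtain ⟨p, hp, ep⟩ := intermediate_value_uIcc hc (a := s) (b := t) (show (0:ℝ) ∈ _ from by
    simp only [es, et, eu, ev]
    exact mem_uIcc.2 (Or.inl ⟨by linarith [mem_Ioi.1 hs], by linarith⟩))
  exact ⟨p, hsub hp, Φ p, hmap p hp, rfl, by simpa [sub_eq_zero] using ep⟩

lemma reach {p : ℝ} (R0 : ℝ) : ∃ R : ℝ, R0 ≤ R ∧ ∃ J : ℕ, ContinuousAt φ^[J] R ∧ φ^[J] R = p := by
  choose pre h1 h2 using surj0
  have h3 : ∀ x, x < pre x := fun x => by
    have := re_lt (w := pre x) (by simpa using mem_Ioi.1 (h1 x)) (by simp; positivity) (Or.inl (by simp))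
    rw [ofReal_re] at this
    exact (h2 x).symm.trans_lt this
  have h4 : ∀ J : ℕ, ContinuousAt φ^[J] (pre^[J] p : ℝ) ∧ φ^[J] (pre^[J] p : ℝ) = p := by
    intro J
    induction J with
    | zero => exact ⟨continuousAt_id, rfl⟩
    | succ J ih =>
      have e : φ (pre (pre^[J] p) : ℝ) = (pre^[J] p : ℝ) := by
        rw [φ_real (G0 (h1 _))]; exact congrArg _ (h2 _)
      rw [Function.iterate_succ_apply' pre, Function.iterate_succ]
      refine ⟨ContinuousAt.comp (by rw [e]; exact ih.1) (φ_diff (G0 (h1 _))).continuousAt, ?_⟩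
      rw [Function.comp_apply, e, ih.2]
  by_contra hcon
  have h5 : ∀ J : ℕ, pre^[J] p ≤ R0 := fun J => by
    by_contra h; exact hcon ⟨_, (not_le.1 h).le, J, h4 J⟩
  have hm : Monotone fun J : ℕ => pre^[J] p := monotone_nat_of_le_succ fun J => by
    rw [Function.iterate_succ_apply']; exact (h3 _).le
  have hb : BddAbove (range fun J : ℕ => pre^[J] p) := ⟨R0, by rintro _ ⟨J, rfl⟩; exact h5 J⟩
  have ht := tendsto_atTop_ciSup hm hb
  set l := ⨆ J : ℕ, pre^[J] p
  have hl : l ∈ B0 := lt_of_lt_of_le (mem_Ioi.1 (h1 p)) (le_ciSup hb 1)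
  have h6 := (Φ_cont (G0 hl)).tendsto.comp (ht.comp (tendsto_add_atTop_nat 1))
  have h7 : Φ l = l := tendsto_nhds_unique h6 (ht.congr fun J => by
    simp only [Function.comp, Function.iterate_succ_apply', h2])
  have := re_lt (w := l) (by simpa using mem_Ioi.1 hl) (by simp; positivity) (Or.inl (by simp))
  rw [ofReal_re] at this
  exact this.ne h7

noncomputable def W (n : ℕ) (y : ℝ) : ℂ := φ^[n] (I * y)

lemma it_im (n : ℕ) {w : ℂ} (h : 0 < w.im) : 0 < (φ^[n] w).im := by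
  induction n with
  | zero => exact h
  | succ n ih => rw [Function.iterate_succ_apply']; exact im_pos ih

lemma it_I (n : ℕ) : φ^[n] I = I := Function.iterate_fixed φ_I n

lemma W_succ (n : ℕ) (y : ℝ) : W (n + 1) y = φ (W n y) := Function.iterate_succ_apply' _ _ _

lemma W_im (n : ℕ) {y : ℝ} (hy : 0 < y) : 0 < (W n y).im := it_im n (by simpa)

lemma W_cont (n : ℕ) {y : ℝ} (hy : 0 < y) : ContinuousAt (W n) y := by
  induction n with
  | zero => unfold W; simp only [Function.iterate_zero, id]; fun_prop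
  | succ n ih =>
    rw [show W (n + 1) = φ ∘ W n from funext fun y => W_succ n y]
    exact (φ_diff (G_of_im (W_im n hy))).continuousAt.comp ih

lemma W_top (n : ℕ) : Tendsto (fun y => (W (n + 1) y).re) atTop atTop := by
  refine tendsto_atTop.2 fun M => ?_
  obtain ⟨R, hR⟩ := re_big M
  induction n generalizing M R with
  | zero =>
    filter_upwards [eventually_ge_atTop R] with y hy
    exact hR (I * y) (by simp) (by simpa using hy.trans (le_abs_self y))
  | succ n ih =>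
    obtain ⟨R', hR'⟩ := re_big |R|
    filter_upwards [ih _ _ hR'] with y hy
    rw [W_succ]
    exact hR _ ((abs_nonneg R).trans hy) ((le_abs_self R).trans (hy.trans (re_le_norm _)))

noncomputable def g : ℕ → ℝ → ℝ
  | 0 => fun y => (W 1 y).re
  | n + 1 => fun y => min (g n y) (W (n + 2) y).re

lemma g_cont (n : ℕ) {y : ℝ} (hy : 0 < y) : ContinuousAt (g n) y := by
  induction n with
  | zero => exact continuous_re.continuousAt.comp (W_cont 1 hy)
  | succ n ih => exact ih.min (continuous_re.continuousAt.comp (W_cont _ hy))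

lemma g_top (n : ℕ) (M : ℝ) : ∀ᶠ y in atTop, M ≤ g n y := by
  induction n with
  | zero => exact (W_top 0).eventually_ge_atTop M
  | succ n ih =>
    filter_upwards [ih, (W_top (n + 1)).eventually_ge_atTop M] with y h1 h2 using le_min h1 h2

lemma g_le (n : ℕ) (y : ℝ) : ∀ k ≤ n, g n y ≤ (W (k + 1) y).re := by
  induction n with
  | zero => intro k hk; rw [Nat.le_zero.1 hk]; exact le_rfl
  | succ n ih =>
    intro k hk
    rcases Nat.le_succ_iff.1 hk with hk | rfl
    · exact (min_le_left _ _).trans (ih k hk)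
    · exact min_le_right _ _

lemma g_eq (n : ℕ) (y : ℝ) : ∃ k ≤ n, g n y = (W (k + 1) y).re := by
  induction n with
  | zero => exact ⟨0, le_rfl, rfl⟩
  | succ n ih =>
    obtain ⟨k, hk, e⟩ := ih
    rcases min_choice (g n y) (W (n + 2) y).re with h | h
    · exact ⟨k, hk.trans n.le_succ, h.trans e⟩
    · exact ⟨n + 1, le_rfl, h⟩

lemma shoot {R : ℝ} (hR : 4 * a ≤ R) (n : ℕ) :
    ∃ y : ℝ, 1 ≤ y ∧ ‖W (n + 1) y - R‖ ≤ 4 * a * (1 / 2) ^ n := by
  have ha := a_pos
  obtain ⟨Y, hY, hY1⟩ := ((g_top n R).and (eventually_ge_atTop 1)).exists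
  have h1 : g n 1 ≤ R := by
    have := g_le n 1 0 n.zero_le
    have e : W (0 + 1) 1 = I := by simp [W, φ_I]
    rw [e, I_re] at this; linarith
  obtain ⟨y, hy, e⟩ := isPreconnected_Ici.intermediate_value (mem_Ici.2 le_rfl) (mem_Ici.2 hY1)
    (fun y hy => (g_cont n (lt_of_lt_of_le one_pos hy)).continuousWithinAt) ⟨h1, hY⟩
  have y0 : 0 < y := lt_of_lt_of_le one_pos hy
  have h2 : ∀ k ≤ n, R ≤ (W (k + 1) y).re := fun k hk => e ▸ g_le n y k hk
  have h3 : ∀ k ≤ n, (W (k + 1) y).im ≤ 4 * a * (1 / 2) ^ k := by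
    intro k
    induction k with
    | zero => intro _; simpa [W] using im_iy y0
    | succ k ih =>
      intro hk
      have := im_half (hR.trans (h2 k (Nat.le_of_succ_le hk))) (W_im _ y0).le
      rw [W_succ, pow_succ]; linarith [ih (Nat.le_of_succ_le hk)]
  obtain ⟨k, hk, e2⟩ := g_eq n y
  rw [e] at e2
  have hkn : k = n := by
    by_contra hne
    have hk' : k + 1 ≤ n := Nat.succ_le_of_lt (lt_of_le_of_ne hk hne)
    have h4 := h2 _ hk'
    have h5 : (W (k + 1) y).im ≤ 4 * a := (h3 k hk).trans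
      (mul_le_of_le_one_right (by positivity) (pow_le_one₀ (by norm_num) (by norm_num)))
    have h6 := re_lt (w := W (k + 1) y) (by linarith)
      (pow_le_pow_left₀ (W_im _ y0).le (by linarith) 2) (Or.inr (by linarith))
    rw [W_succ] at h4; linarith
  subst hkn
  refine ⟨y, hy, (norm_le_abs_re_add_abs_im _).trans ?_⟩
  simp only [sub_re, ofReal_re, sub_im, ofReal_im, sub_zero, ← e2, sub_self, abs_zero, zero_add]
  rw [abs_of_pos (W_im _ y0)]; exact h3 k le_rfl

/-- orbits shadow a boundary two-cycle for arbitrarily long times -/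
lemma shadow : ∃ p q : ℝ, p ≠ q ∧ ∃ (J : ℕ) (y : ℕ → ℝ), (∀ n, 1 ≤ y n) ∧ ∀ i : ℕ,
    Tendsto (fun n => W (n + J + 2 * i + 1) (y n)) atTop (𝓝 p) ∧
    Tendsto (fun n => W (n + J + 2 * i + 2) (y n)) atTop (𝓝 q) := by
  obtain ⟨p, hp, q, hq, e1, e2⟩ := cyc
  obtain ⟨R, hR, J, hJ, eJ⟩ := reach (p := p) (4 * a)
  choose y hy1 hy2 using shoot hR
  have f1 : φ p = q := by rw [φ_real (G0 hp)]; exact congrArg _ e1
  have f2 : φ q = p := by rw [φ_real (G1 hq)]; exact congrArg _ e2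
  have t0 : Tendsto (fun n => W (n + 1) (y n)) atTop (𝓝 R) := by
    rw [tendsto_iff_norm_sub_tendsto_zero]
    refine squeeze_zero (fun _ => norm_nonneg _) hy2 ?_
    simpa using (tendsto_pow_atTop_nhds_zero_of_lt_one (r := (1 / 2 : ℝ)) (by norm_num)
      (by norm_num)).const_mul (4 * a)
  have st : ∀ i : ℕ, Tendsto (fun n => W (n + J + 2 * i + 1) (y n)) atTop (𝓝 p) →
      Tendsto (fun n => W (n + J + 2 * i + 2) (y n)) atTop (𝓝 q) := fun i h => by
    have := (φ_diff (G0 hp)).continuousAt.tendsto.comp h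
    rw [f1] at this
    exact this.congr fun n => (W_succ _ _).symm
  have t1 : ∀ i : ℕ, Tendsto (fun n => W (n + J + 2 * i + 1) (y n)) atTop (𝓝 p) := by
    intro i
    induction i with
    | zero =>
      have := hJ.tendsto.comp t0
      rw [eJ] at this
      refine this.congr fun n => ?_
      simp only [Function.comp, W, ← Function.iterate_add_apply]
      congr 1; ring
    | succ i ih =>
      have := (φ_diff (G1 hq)).continuousAt.tendsto.comp (st i ih)
      rw [f2] at this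
      exact this.congr fun n => (W_succ _ _).symm
  exact ⟨p, q, by linarith [mem_Ioi.1 hp, hq.2] |> ne_of_gt, J, y, hy1, fun i => ⟨t1 i, st i (t1 i)⟩⟩

end Pool.Agent.H.MP_f48be4_an
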