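import Pool.Agent.H.MP_f48be4_an.B

open Filter Topology Set Complex Metric MeasureTheory
open scoped ZeroAtInfty

namespace Pool.Agent.H.MP_f48be4_an

noncomputable def Cy (w : ℂ) : ℂ := (w - I) / (w + I)
noncomputable def Ci (z : ℂ) : ℂ := I * (1 + z) / (1 - z)
noncomputable def f (z : ℂ) : ℂ := Cy (φ (Ci z))

lemma add_I_ne {w : ℂ} (h : 0 ≤ w.im) : w + I ≠ 0 := fun h0 => by
  have := congrArg im h0; simp at this; linarith

lemma Ci_Cy {w : ℂ} (h : 0 ≤ w.im) : Ci (Cy w) = w := by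
  have := add_I_ne h
  unfold Ci Cy
  have h2 : (1:ℂ) - (w - I) / (w + I) = 2 * I / (w + I) := by field_simp; ring
  rw [h2]; field_simp; ring

lemma Ci_im (z : ℂ) : (Ci z).im = (1 - normSq z) / normSq (1 - z) := by
  unfold Ci; rw [div_im]; simp [normSq_apply z]; ring

lemma one_sub_ne {z : ℂ} (hz : ‖z‖ < 1) : 1 - z ≠ 0 := fun h => by
  rw [sub_eq_zero] at h; rw [← h] at hz; simp at hz

lemma Ci_pos {z : ℂ} (hz : ‖z‖ < 1) : 0 < (Ci z).im := by
  rw [Ci_im]
  refine div_pos ?_ (normSq_pos.2 (one_sub_ne hz))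
  rw [normSq_eq_norm_sq]; nlinarith [norm_nonneg z]

lemma Cy_Ci {z : ℂ} (hz : 1 - z ≠ 0) : Cy (Ci z) = z := by
  unfold Ci Cy
  have h2 : I * (1 + z) / (1 - z) + I = 2 * I / (1 - z) := by field_simp; ring
  rw [h2]; field_simp; ring

lemma Cy_lt {w : ℂ} (h : 0 < w.im) : ‖Cy w‖ < 1 := by
  rw [Cy, norm_div, div_lt_one (norm_pos_iff.2 (add_I_ne h.le)), ← sq_lt_sq₀ (norm_nonneg _)
    (norm_nonneg _), ← normSq_eq_norm_sq, ← normSq_eq_norm_sq]
  simp [normSq_apply]; nlinarith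

lemma Cy_real (x : ℝ) : ‖Cy x‖ = 1 := by
  rw [Cy, norm_div, div_eq_one_iff_eq (norm_pos_iff.2 (add_I_ne (by simp))).ne',
    ← sq_eq_sq₀ (norm_nonneg _) (norm_nonneg _), ← normSq_eq_norm_sq, ← normSq_eq_norm_sq]
  simp [normSq_apply]

lemma Cy_diff {w : ℂ} (h : 0 ≤ w.im) : DifferentiableAt ℂ Cy w :=
  (differentiableAt_id.sub_const _).div (differentiableAt_id.add_const _) (add_I_ne h)

lemma Ci_diff {z : ℂ} (hz : 1 - z ≠ 0) : DifferentiableAt ℂ Ci z :=
  ((differentiableAt_id.const_add _).const_mul _).div (differentiableAt_id.const_sub _) hz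

lemma f_lt {z : ℂ} (hz : ‖z‖ < 1) : ‖f z‖ < 1 := Cy_lt (im_pos (Ci_pos hz))

lemma f_diff {z : ℂ} (hz : ‖z‖ < 1) : DifferentiableAt ℂ f z :=
  (Cy_diff (im_pos (Ci_pos hz)).le).comp z
    ((φ_diff (G_of_im (Ci_pos hz))).comp z (Ci_diff (one_sub_ne hz)))

lemma f_zero : f 0 = 0 := by simp [f, Ci, φ_I, Cy]

lemma f_it (n : ℕ) {z : ℂ} (hz : ‖z‖ < 1) : f^[n] z = Cy (φ^[n] (Ci z)) := by
  induction n with
  | zero => exact (Cy_Ci (one_sub_ne hz)).symm
  | succ n ih =>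
    rw [Function.iterate_succ_apply', ih, f, Ci_Cy (it_im n (Ci_pos hz)).le,
      Function.iterate_succ_apply']

lemma f_inner : ∀ᵐ θ : ℝ, ∃ L : ℂ, ‖L‖ = 1 ∧
    Tendsto (fun r : ℝ => f (r * exp (θ * I))) (𝓝[<] 1) (𝓝 L) := by
  have hc : (insert 1 (range fun k => Cy (-c k))).Countable := (countable_range _).insert 1
  have h2 : ((fun θ : ℝ => (θ : ℂ) * I) ⁻¹' (exp ⁻¹' insert 1 (range fun k => Cy (-c k)))).Countable :=
    hc.preimage_cexp.preimage fun x y h => by simpa using h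
  filter_upwards [h2.ae_notMem volume] with θ hθ
  set ζ := exp (θ * I)
  simp only [mem_preimage, mem_insert_iff, mem_range, not_or, not_exists] at hθ
  have h1 : 1 - ζ ≠ 0 := sub_ne_zero.2 (Ne.symm hθ.1)
  have hn : normSq ζ = 1 := by rw [normSq_eq_norm_sq, norm_exp_ofReal_mul_I]; simp
  have hr : Ci ζ = ((Ci ζ).re : ℂ) := Complex.ext (by simp) (by simp [Ci_im, hn])
  have hG : Ci ζ ∈ G := fun k h0 =>
    hθ.2 k (by rw [← eq_neg_of_add_eq_zero_left h0, Cy_Ci h1])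
  have e : φ (Ci ζ) = ((φ (Ci ζ)).re : ℂ) := by rw [hr]; exact φ_real (hr ▸ hG)
  have hcont : ContinuousAt f ζ :=
    ((Cy_diff (by rw [Function.comp_apply, e]; simp)).comp ζ ((φ_diff hG).comp ζ (Ci_diff h1))).continuousAt
  refine ⟨f ζ, by rw [f, e]; exact Cy_real _, hcont.tendsto.comp ?_⟩
  have : Continuous fun r : ℝ => (r : ℂ) * ζ := by fun_prop
  simpa using (this.tendsto 1).mono_left nhdsWithin_le_nhds

lemma Ci_r {r : ℝ} (_h : r < 1) : Ci r = I * ((1 + r) / (1 - r) : ℝ) := by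
  unfold Ci; push_cast; ring

lemma radial (n : ℕ) : Tendsto (fun r : ℝ => f^[n + 1] r) (𝓝[<] 1) (𝓝 1) := by
  have h1 : Tendsto (fun r : ℝ => (1 + r) / (1 - r)) (𝓝[<] 1) atTop := by
    have h2 : Tendsto (fun r : ℝ => 1 - r) (𝓝[<] 1) (𝓝[>] 0) := by
      refine tendsto_nhdsWithin_iff.2 ⟨?_, ?_⟩
      · have : Continuous fun r : ℝ => 1 - r := by fun_prop
        simpa using (this.tendsto 1).mono_left nhdsWithin_le_nhds
      · filter_upwards [self_mem_nhdsWithin] with r hr using sub_pos.2 (mem_Iio.1 hr)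
    have h3 : Tendsto (fun r : ℝ => 1 + r) (𝓝[<] 1) (𝓝 (1 + 1)) :=
      ((continuous_const.add continuous_id).tendsto 1).mono_left nhdsWithin_le_nhds
    exact h3.pos_mul_atTop (by norm_num) (tendsto_inv_nhdsGT_zero.comp h2)
  have h4 := (W_top n).comp h1
  have h5 : Tendsto (fun r : ℝ => ‖W (n + 1) ((1 + r) / (1 - r)) + I‖) (𝓝[<] 1) atTop :=
    tendsto_atTop_mono (fun r => by simpa using re_le_norm (W (n + 1) ((1 + r) / (1 - r)) + I)) h4
  rw [tendsto_iff_norm_sub_tendsto_zero]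
  refine (h5.const_div_atTop 2).congr' ?_
  filter_upwards [Ioo_mem_nhdsLT (show (0:ℝ) < 1 by norm_num)] with r hr
  have hn : ‖(r : ℂ)‖ < 1 := by rw [norm_real, Real.norm_of_nonneg hr.1.le]; exact hr.2
  have h6 := add_I_ne (it_im (n + 1) (Ci_pos hn)).le
  rw [f_it _ hn, W, ← Ci_r hr.2, Cy, div_sub_one h6, norm_div]
  congr 1
  rw [show ∀ w : ℂ, w - I - (w + I) = -2 * I from fun w => by ring]; simp

lemma not_rot : ¬ ∃ l : ℂ, ‖l‖ = 1 ∧ ∀ z ∈ ball (0:ℂ) 1, f z = l * z := by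
  rintro ⟨l, -, h⟩
  have h1 : Tendsto (fun r : ℝ => l * r) (𝓝[<] 1) (𝓝 (l * (1:ℝ))) :=
    ((continuous_const.mul continuous_ofReal).tendsto 1).mono_left nhdsWithin_le_nhds
  have h2 : l * (1:ℝ) = 1 := tendsto_nhds_unique h1 ((radial 0).congr' (by
    filter_upwards [Ioo_mem_nhdsLT (show (0:ℝ) < 1 by norm_num)] with r hr
    exact h r (by rw [mem_ball_zero_iff, norm_real, Real.norm_of_nonneg hr.1.le]; exact hr.2)))
  have hl : l = 1 := by simpa using h2
  have i0 : 0 < (1 + I : ℂ).im := by simp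
  have h3 := h (Cy (1 + I)) (mem_ball_zero_iff.2 (Cy_lt i0))
  rw [hl, one_mul, f, Ci_Cy i0.le] at h3
  have h4 := congrArg Ci h3
  rw [Ci_Cy (im_pos i0).le, Ci_Cy i0.le] at h4
  have := re_lt (w := 1 + I) (by simp) (by simp) (Or.inr (by simp))
  rw [h4] at this; exact lt_irrefl _ this

lemma f_don : DifferentiableOn ℂ f (ball 0 1) := fun _ hz =>
  (f_diff (mem_ball_zero_iff.1 hz)).differentiableWithinAt

lemma decay {ρ : ℝ} (h0 : 0 < ρ) (h1 : ρ < 1) : ∃ κ : ℝ, 0 ≤ κ ∧ κ < 1 ∧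
    ∀ (n : ℕ) (z : ℂ), ‖z‖ ≤ ρ → ‖f^[n] z‖ ≤ κ ^ n * ρ := by
  have hm : MapsTo f (ball 0 1) (closedBall (f 0) 1) := fun z hz => by
    rw [f_zero, mem_closedBall_zero_iff]; exact (f_lt (mem_ball_zero_iff.1 hz)).le
  have hd := (differentiableOn_dslope (ball_mem_nhds (0:ℂ) one_pos)).2 f_don
  obtain ⟨z0, hz0, hmax⟩ := (isCompact_closedBall (0:ℂ) ρ).exists_isMaxOn ⟨0, by simp [h0.le]⟩
    (hd.continuousOn.mono (closedBall_subset_ball h1)).norm
  have hz0' := closedBall_subset_ball h1 hz0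
  have hle := norm_dslope_le_div_of_mapsTo_ball f_don hm hz0'
  have hlt : ‖dslope f 0 z0‖ < 1 := by
    refine lt_of_le_of_ne (by simpa using hle) fun he => not_rot ⟨_, he, fun z hz => ?_⟩
    have := affine_of_mapsTo_ball_of_norm_dslope_eq_div f_don hm hz0' (by simpa using he) hz
    simpa [f_zero, mul_comm] using this
  refine ⟨_, norm_nonneg _, hlt, fun n z hz => ?_⟩
  induction n with
  | zero => simpa using hz
  | succ n ih =>
    have h2 : ‖f^[n] z‖ ≤ ρ := ih.trans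
      (mul_le_of_le_one_left h0.le (pow_le_one₀ (norm_nonneg _) hlt.le))
    have h3 := sub_smul_dslope f 0 (f^[n] z)
    rw [f_zero, sub_zero, sub_zero] at h3
    rw [Function.iterate_succ_apply', ← h3, norm_smul, pow_succ, mul_right_comm]
    exact mul_le_mul ih (hmax (mem_closedBall_zero_iff.2 h2)) (norm_nonneg _) (by positivity)

lemma it_diff (n : ℕ) {z : ℂ} (hz : ‖z‖ < 1) : DifferentiableAt ℂ f^[n] z := by
  induction n with
  | zero => exact differentiableAt_id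
  | succ n ih =>
    rw [Function.iterate_succ']
    exact (f_diff (by rw [f_it n hz]; exact Cy_lt (it_im n (Ci_pos hz)))).comp z ih

lemma F_diff {A : ℕ → ℂ} {M : ℝ} (hA : ∀ n, ‖A n‖ ≤ M) :
    DifferentiableOn ℂ (fun z => ∑' n, A n * f^[n + 1] z) (ball 0 1) := by
  intro z hz
  obtain ⟨ρ, h1, h2⟩ := exists_between (mem_ball_zero_iff.1 hz)
  have h0 : 0 < ρ := (norm_nonneg z).trans_lt h1
  obtain ⟨κ, k0, k1, h⟩ := decay h0 h2
  have hs : Summable fun n : ℕ => M * (κ ^ (n + 1) * ρ) :=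
    (((summable_nat_add_iff 1).2 (summable_geometric_of_lt_one k0 k1)).mul_right _).mul_left _
  have := differentiableOn_tsum_of_summable_norm hs (F := fun n z => A n * f^[n + 1] z)
    (U := ball 0 ρ) (fun n w hw => ((it_diff _ ((mem_ball_zero_iff.1 hw).trans h2)).const_mul
      _).differentiableWithinAt) isOpen_ball (fun n w hw => by
        rw [norm_mul]
        exact mul_le_mul (hA n) (h _ w (mem_ball_zero_iff.1 hw).le) (norm_nonneg _)
          ((norm_nonneg _).trans (hA n)))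
  exact (this.differentiableAt (isOpen_ball.mem_nhds (mem_ball_zero_iff.2 h1))).differentiableWithinAt

lemma it_sum {z : ℂ} (hz : ‖z‖ < 1) : Summable fun n => ‖f^[n + 1] z‖ := by
  obtain ⟨ρ, h1, h2⟩ := exists_between hz
  obtain ⟨κ, k0, k1, h⟩ := decay ((norm_nonneg z).trans_lt h1) h2
  exact Summable.of_nonneg_of_le (fun _ => norm_nonneg _) (fun n => h _ z h1.le)
    (((summable_nat_add_iff 1).2 (summable_geometric_of_lt_one k0 k1)).mul_right _)

lemma le_c0 (s : C₀(ℕ, ℂ)) (n : ℕ) : ‖s n‖ ≤ ‖s‖ := s.toBCF.norm_coe_le_norm n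

lemma dif_le (s : C₀(ℕ, ℂ)) (n : ℕ) : ‖s n - s (n + 1)‖ ≤ 2 * ‖s‖ :=
  (norm_sub_le _ _).trans (by linarith [le_c0 s n, le_c0 s (n + 1)])

lemma sum_s {Z : ℕ → ℂ} (hZ : Summable fun n => ‖Z n‖) (s : C₀(ℕ, ℂ)) :
    Summable fun n => ‖(s n - s (n + 1)) * Z n‖ :=
  Summable.of_nonneg_of_le (fun _ => norm_nonneg _) (fun n => by
    rw [norm_mul]; exact mul_le_mul_of_nonneg_right (dif_le s n) (norm_nonneg _)) (hZ.mul_left _)

noncomputable def Λ {Z : ℕ → ℂ} (hZ : Summable fun n => ‖Z n‖) : C₀(ℕ, ℂ) →L[ℂ] ℂ :=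
  LinearMap.mkContinuous
    { toFun := fun s => ∑' n, (s n - s (n + 1)) * Z n
      map_add' := fun s t => by
        rw [← (sum_s hZ s).of_norm.tsum_add (sum_s hZ t).of_norm]
        exact tsum_congr fun n => by simp; ring
      map_smul' := fun r s => by
        rw [RingHom.id_apply, smul_eq_mul, ← tsum_mul_left]
        exact tsum_congr fun n => by simp; ring }
    (2 * ∑' n, ‖Z n‖) fun s => by
      refine (norm_tsum_le_tsum_norm (sum_s hZ s)).trans ?_
      rw [mul_right_comm, ← tsum_mul_left]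
      exact (sum_s hZ s).tsum_le_tsum (fun n => by
        rw [norm_mul]; exact mul_le_mul_of_nonneg_right (dif_le s n) (norm_nonneg _)) (hZ.mul_left _)

noncomputable def e (j : ℕ) : C₀(ℕ, ℂ) :=
  ⟨⟨fun n => if n = j then 1 else 0, continuous_of_discreteTopology⟩, by
    rw [cocompact_eq_cofinite, Nat.cofinite_eq_atTop]
    refine tendsto_const_nhds.congr' ?_
    filter_upwards [eventually_gt_atTop j] with n hn
    simp [hn.ne']⟩

lemma e_apply (j n : ℕ) : e j n = if n = j then 1 else 0 := rfl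

lemma Λ_e {Z : ℕ → ℂ} (hZ : Summable fun n => ‖Z n‖) (j : ℕ) :
    Λ hZ (e (j + 1)) = Z (j + 1) - Z j := by
  change ∑' n, (e (j + 1) n - e (j + 1) (n + 1)) * Z n = _
  rw [tsum_eq_sum (s := {j, j + 1})]
  · simp [e_apply]; ring
  · intro n hn
    simp only [Finset.mem_insert, Finset.mem_singleton, not_or] at hn
    simp [e_apply, hn.1, hn.2]

lemma e_sum (m M : ℕ) : ‖∑ i ∈ Finset.range M, e (m + 2 * i + 1)‖ ≤ 1 := by
  rw [← ZeroAtInftyContinuousMap.norm_toBCF_eq_norm]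
  refine (BoundedContinuousFunction.norm_le zero_le_one).2 fun n => ?_
  have : ∀ M : ℕ, (∑ i ∈ Finset.range M, e (m + 2 * i + 1)) n =
      ∑ i ∈ Finset.range M, e (m + 2 * i + 1) n := fun M => by
    induction M with
    | zero => simp
    | succ M ih => simp [Finset.sum_range_succ, ih]
  change ‖(∑ i ∈ Finset.range M, e (m + 2 * i + 1)) n‖ ≤ 1
  rw [this]
  by_cases h : ∃ i ∈ Finset.range M, n = m + 2 * i + 1
  · obtain ⟨i, hi, rfl⟩ := h
    rw [Finset.sum_eq_single i]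
    · simp [e_apply]
    · intro j _ hj; rw [e_apply, if_neg (by omega)]
    · intro h; exact absurd hi h
  · rw [Finset.sum_eq_zero fun i hi => by rw [e_apply, if_neg fun h' => h ⟨i, hi, h'⟩]]
    simp

lemma main : ∃ s : C₀(ℕ, ℂ), ¬ ∃ L : ℂ,
    Tendsto (fun r : ℝ => ∑' n, (s n - s (n + 1)) * f^[n + 1] r) (𝓝[<] 1) (𝓝 L) := by
  by_contra hcon
  push Not at hcon
  have hn : ∀ r : Ico (0:ℝ) 1, ‖((r : ℝ) : ℂ)‖ < 1 := fun r => by
    rw [norm_real, Real.norm_of_nonneg r.2.1]; exact r.2.2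
  obtain ⟨K, hK⟩ := banach_steinhaus (g := fun r : Ico (0:ℝ) 1 => Λ (it_sum (hn r))) (fun s => by
    obtain ⟨L, hL⟩ := hcon s
    have h1 := hL.norm.eventually (eventually_le_nhds (lt_add_one ‖L‖))
    obtain ⟨ρ, hρ, h2⟩ := mem_nhdsLT_iff_exists_Ioo_subset.1 h1
    obtain ⟨K, hK⟩ := (isCompact_closedBall (0:ℂ) (max ρ 0)).exists_bound_of_continuousOn
      ((F_diff (dif_le s)).continuousOn.mono (closedBall_subset_ball (max_lt hρ one_pos)))
    refine ⟨max K (‖L‖ + 1), fun r => ?_⟩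
    rcases le_or_gt (r : ℝ) ρ with h | h
    · refine le_trans (hK r ?_) (le_max_left _ _)
      rw [mem_closedBall_zero_iff, norm_real, Real.norm_of_nonneg r.2.1]
      exact h.trans (le_max_left _ _)
    · exact le_trans (h2 ⟨h, r.2.2⟩) (le_max_right _ _))
  obtain ⟨p, q, hpq, J, y, hy, ht⟩ := shadow
  have hne : Cy q - Cy p ≠ 0 := fun h => by
    have := congrArg Ci (sub_eq_zero.1 h)
    rw [Ci_Cy (by simp), Ci_Cy (by simp)] at this
    exact hpq (by exact_mod_cast this.symm)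
  obtain ⟨M, hM⟩ := exists_nat_gt (K / ‖Cy q - Cy p‖)
  have key : ∀ n, ‖∑ i ∈ Finset.range M,
      (Cy (W (n + J + 2 * i + 2) (y n)) - Cy (W (n + J + 2 * i + 1) (y n)))‖ ≤ K := fun n => by
    have y1 := hy n
    let r : Ico (0:ℝ) 1 := ⟨(y n - 1) / (y n + 1), div_nonneg (by linarith) (by linarith),
      (div_lt_one (by linarith)).2 (by linarith)⟩
    have er : Ci (r : ℝ) = I * y n := by
      rw [Ci_r r.2.2]; congr 2
      have : y n + 1 ≠ 0 := by linarith
      simp only [r]; field_simp; ring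
    have h1 := ((Λ (it_sum (hn r))).le_opNorm (∑ i ∈ Finset.range M, e (n + J + 2 * i + 1))).trans
      (mul_le_mul (hK r) (e_sum _ _) (norm_nonneg _) ((norm_nonneg _).trans (hK r)))
    rw [map_sum, mul_one] at h1
    simpa only [Λ_e, f_it _ (hn r), er, W] using h1
  have h2 := (tendsto_finsetSum (Finset.range M) fun i _ =>
    (((Cy_diff (w := q) (by simp)).continuousAt.tendsto.comp (ht i).2).sub
      ((Cy_diff (w := p) (by simp)).continuousAt.tendsto.comp (ht i).1))).norm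
  have h3 := le_of_tendsto' h2 key
  rw [Finset.sum_const, Finset.card_range, nsmul_eq_mul, norm_mul, Complex.norm_natCast] at h3
  rw [div_lt_iff₀ (norm_pos_iff.2 hne)] at hM
  linarith

end Pool.Agent.H.MP_f48be4_an
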